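import Mathlib
import Pool.Agent.H26.BL5

set_option autoImplicit false

namespace Pool.Agent.Results.MP_1502ad_an.Counterexample

open H26 BL0 BL1 BL2 BL5

theorem result : ∃ (J B : BL) (ι : J →L[ℝ] prod J B) (Q : prod J B →L[ℝ] B),
    IsHom ι ∧ (∀ x, ‖ι x‖ = ‖x‖) ∧ Set.range ι = {a | Q a = 0} ∧ IsQuot Q ∧
    Semiproj J ∧ Semiproj B ∧ ¬ Semiproj (prod J B) := by
  refine ⟨l1, real, .inl ℝ l1 ℝ, .snd ℝ l1 ℝ, fun x => Prod.ext rfl (abs_zero (α := ℝ)).symm,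
    fun x => by simp, Set.ext fun a => ⟨by rintro ⟨x, rfl⟩; rfl, fun h => ⟨a.1, Prod.ext rfl h.symm⟩⟩,
    isQuot_of (fun _ => rfl) norm_snd_le fun z r hr => ⟨(0, z), rfl, by simpa using hr.le⟩,
    Proj.semiproj l1_proj, Proj.semiproj real_proj, fun h => ?_⟩
  obtain ⟨X, Q, h0, h1, h2⟩ := obstruction
  obtain ⟨S, h3, h4, h5⟩ := semiproj_lift h h1 (φ := .id ℝ _) (fun _ => rfl)
    ContinuousLinearMap.norm_id_le one_half_pos
  linarith [h2 S h3 h5]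

end Pool.Agent.Results.MP_1502ad_an.Counterexample
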